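import Pool.Agent.Y516.OJ.Final

set_option autoImplicit false

/-!
# Set intersection queries: space `(N / T) ^ 2`, if only one of the cells read depends on both halves

A family of sets of total size `N`, in two halves, is preprocessed. The memory has `s` cells of `w`
bits, which may be *arbitrary* functions of the whole family, and in addition an unlimited memory
with arbitrary functions of the first half alone and of the second half alone. A query names a set
of each half, and it is asked whether the two sets intersect (which is necessary in order to list
the intersection). One of the `s` joint cells is read; its address may be an *arbitrary* function of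
the query, of the first half and of public random bits. Then the query is answered by an arbitrary
communication protocol of at most `b` bits between the two halves; for instance, `T` adaptive probes
of cells of the one-sided memory are such a protocol with `b = w T`. If the error probability is at
most `1 / (2 * 10 ^ 6)`, then

  `N ^ 2 ≤ 10 ^ 20 * (b + l) ^ 2 * w ^ 3 * s`, where `l = ⌈2 log₂ N⌉`,

and `l = 0` suffices if the address is a function of the query and the random bits only. So query
time `T` needs space `N ^ 2 / (T ^ 2 polylog)` in this model, and `Ω~(N ^ 2 / T)` if `T` is
polylogarithmic. The dependence on `T` is optimal in this model: a table of the pairs of sets with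
more than `T` elements, indexed by public random hash values of the names of the two sets, has
`O((N / T) ^ 2)` cells, and if one of the sets is smaller then `O(T)` one-sided probes suffice.

Proof. There are `k` sets in each half, `k = N / ((b + l) w)` up to a constant; the elements of the
universe, `Θ((b + l) ^ 2 w ^ 2)` in number, are independently in every set with probability
`α = Θ(1 / ((b + l) w))`. For a given first half nearly all pairs `(i, j)` can be put into disjoint
groups of `m = 4000 w` pairs such that the pairs of a group read the same cell, if
`k ^ 2 > 40000 w s`. A group is an arbitrary bipartite graph, so its `m` instances are not
independent. We guess the content of the cell. For fixed protocols and a fixed group `D` the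
probability that `D` is a group of the first half and that nearly all answers on `D` are right is
small: this is a direct product theorem for disjointness on overlapping pairs, on an event of one
side. It follows from the inequality
`E [f g 1(no pair in S intersects)] ≤ (1 - α ^ 2 |S| / 40) ^ u ‖f‖_p ‖g‖_p`, `p = 1 + 2 m α`, for
functions `f` of the first half and `g` of the second half, which tensorises; for one element of
the universe it is proved by an improved Jensen inequality on the events that this element belongs
to exactly one of the sets concerned.
-/

namespace Pool.Agent.Results.MP_f326ae_lc.AdaptiveJointProbe

open Pool.Agent.Y516.OJ

/-- For all `N`, `w`, `b`, `l` there are `k` and `u` such that every random data structure with `s`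
joint cells of `w` bits, one joint probe (the address is a function of the query and of the first
half) and protocols of `b` bits, which decides emptiness of the intersections for families of `2 k`
subsets of a universe with `u` elements, of total size at most `N`, satisfies
`N ^ 2 ≤ 10 ^ 20 * (b + l) ^ 2 * w ^ 3 * s`, if `N ^ 2 ≤ 2 ^ l` or if the addresses do not depend on
the family. -/
theorem result (N w b l : ℕ) (hw : 1 ≤ w) (hb : 1 ≤ b) :
    ∃ k u : ℕ, u ≤ 2 * 10 ^ 14 * (b + l) ^ 2 * w ^ 2 ∧
      ∀ (s : ℕ) (Ω : Type) [Fintype Ω] (p : Ω → ℝ) (D : Ω → PairADS k u w s),
        (N ^ 2 ≤ 2 ^ l ∨ ∀ ω i j F F', (D ω).addr i j F = (D ω).addr i j F') →
        SolvesPairA b N p D → N ^ 2 ≤ 10 ^ 20 * (b + l) ^ 2 * w ^ 3 * s :=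
  pair_ad coreThm adThm2 N w b l hw hb

end Pool.Agent.Results.MP_f326ae_lc.AdaptiveJointProbe
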