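import Pool.Agent.Y516.OJ.Final

set_option autoImplicit false

/-!
# Set intersection queries: the space of structures with a two-dimensional joint table

The best known structure which decides, for sets of total size `N`, in time `T` whether two of them
intersect stores a table with the answers for all pairs of sets with more than `T` elements, with
`(N / T) ^ 2` cells; the cell which is read is given by the rank of the first set and the rank of the
second set among the sets with more than `T` elements, and a set with at most `T` elements is
looked up in the other set. We show that this space is optimal up to factors polylogarithmic in `N`
among all structures of the following kind. A family of sets in two halves is preprocessed. There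
is a table of `s₁` rows and `s₂` columns of cells of `w` bits, which may be *arbitrary* functions of
the whole family, and in addition an unlimited memory with arbitrary functions of the first half
alone and of the second half alone. A query names a set `i` of the first half and a set `j` of the
second half. One cell of the table is read; its row may be an *arbitrary* function of `i`, the first
half and public random bits, and its column an arbitrary function of `j`, the second half and public
random bits. Then the query is answered by an arbitrary communication protocol of at most `b` bits
between the two halves; for instance, `T` adaptive probes of cells of the one-sided memory are such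
a protocol with `b = w T`. If the error probability is at most `1 / (2 * 10 ^ 6)`, then

  `N ^ 2 ≤ 3 * 10 ^ 24 * (b + log₂ N + 1) ^ 2 * w ^ 4 * s₁ s₂`.

Proof. It is enough to show that `k ≤ 40000 w s₁` (and the same for `s₂`), where `2 k` is the number
of sets, `k = N / ((b + log₂ N) w)` up to a constant. We fix one set `j` of the second half. For a
given first half nearly all `i` can be put into disjoint groups of `m = 4000 w` indices with the same
row, if this fails. The `m` queries of a group read the same cell, and we guess its content. The
probability that a fixed set of `m` indices is a group and that nearly all answers for it are right
is small, by a direct product theorem for disjointness on overlapping pairs on an event of one side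
(see `Pool.Agent.Y516.OJ.Ub2`), and one can sum over all possible groups.
-/

namespace Pool.Agent.Results.MP_f326ae_lc.TwoDimensionalTable

open Pool.Agent.Y516.OJ

/-- For all `N`, `w`, `b` there are `k` and `u` such that every random data structure with a joint
table of `s₁` rows and `s₂` columns of cells of `w` bits, one probe to this table (the row is a
function of the first set and the first half, the column of the second set and the second half) and
protocols of `b` bits, which decides emptiness of the intersections for families of `2 k` subsets of
a universe with `u` elements, of total size at most `N`, satisfies
`N ^ 2 ≤ 3 * 10 ^ 24 * (b + log₂ N + 1) ^ 2 * w ^ 4 * (s₁ * s₂)`. -/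
theorem result (N w b : ℕ) (hw : 1 ≤ w) (hb : 1 ≤ b) :
    ∃ k u : ℕ, u ≤ 2 * 10 ^ 14 * (b + (Nat.log 2 N + 1)) ^ 2 * w ^ 2 ∧
      ∀ (s₁ s₂ : ℕ) (Ω : Type) [Fintype Ω] (p : Ω → ℝ) (D : Ω → KeyDS k u w s₁ s₂),
        SolvesKey b N p D →
          N ^ 2 ≤ 3 * 10 ^ 24 * (b + (Nat.log 2 N + 1)) ^ 2 * w ^ 4 * (s₁ * s₂) :=
  key_main adThm N w b hw hb

end Pool.Agent.Results.MP_f326ae_lc.TwoDimensionalTable
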